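import Pool.Agent.Q86.EM.Frb
import Pool.Agent.Q86.EM.Asm3

/-!
# The KLS inequality for convex bodies of bounded tree-depth

Let `I` be a rooted forest (a partially ordered set in which the elements below `v`, the ancestors of `v`,
form a chain) of height at most `d`, and let `K` be a convex body in `ℝ^I` which is given by conditions on
the coordinates along the branches: `K = {x : (x_u)_{u ≤ v} ∈ L_v for all v}`. Such bodies satisfy Q1 with
the constant `C^(-d)`, `C` absolute. So Q1 holds, with a constant independent of the dimension, for all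
bodies given by convex conditions on groups of coordinates whose constraint graph has tree-depth at most `d`.

Examples. `d = 1`: boxes. `d = m + 1`: bodies in `ℝ^m × ℝ^n` whose sections over the points of `ℝ^m` are
boxes. The forest may have any number of branches at each of its levels, and there is no bound on the number
of facets.

Method. Section by section: a two-scale argument over one coordinate (the root), products over the branches,
induction on the height; and a new proof of E. Milman's theorem. See
`Pool/Agent/Results/MP_8d00da_gt/ParallelSections.lean`.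
-/

set_option autoImplicit false

namespace Pool.Agent.Results.MP_8d00da_gt.BoundedTreeDepth

open MeasureTheory Set
open scoped ENNReal InnerProductSpace

section defs

variable {ι : Type} [Fintype ι]

/-- convex body: a compact convex set with nonempty interior -/
structure Body (K : Set (EuclideanSpace ℝ ι)) : Prop where
  compact : IsCompact K
  convex : Convex ℝ K
  int : (interior K).Nonempty

/-- the uniform probability measure on `K` -/
noncomputable def unif (K : Set (EuclideanSpace ℝ ι)) : Measure (EuclideanSpace ℝ ι) :=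
  (volume K)⁻¹ • volume.restrict K

/-- Minkowski (exterior) boundary measure `μ⁺(A)` -/
noncomputable def bdry (μ : Measure (EuclideanSpace ℝ ι)) (A : Set (EuclideanSpace ℝ ι)) : ℝ≥0∞ :=
  Filter.liminf (fun ε : ℝ => (μ (Metric.thickening ε A) - μ A) / ENNReal.ofReal ε)
    (nhdsWithin 0 (Set.Ioi 0))

/-- the halfspace `⟪u, x⟫ ≤ r` -/
def halfspace (u : EuclideanSpace ℝ ι) (r : ℝ) : Set (EuclideanSpace ℝ ι) := {x | ⟪u, x⟫_ℝ ≤ r}

/-- **Q1 for the convex body `K`, with the constant `1 / k`**: for `μ` uniform on `K` and `t ∈ [0, ∞]`, if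
`t min(μ H, 1 - μ H) ≤ μ⁺(H)` for all halfspaces `H` then `t min(μ A, 1 - μ A) ≤ k μ⁺(A)` for all
measurable sets `A`. -/
def KLS (K : Set (EuclideanSpace ℝ ι)) (k : ℝ) : Prop := ∀ t : ℝ≥0∞,
  (∀ (u : EuclideanSpace ℝ ι) (r : ℝ), u ≠ 0 →
    t * min (unif K (halfspace u r)) (1 - unif K (halfspace u r)) ≤ bdry (unif K) (halfspace u r)) →
  ∀ A : Set (EuclideanSpace ℝ ι), MeasurableSet A →
    t * min (unif K A) (1 - unif K A) ≤ ENNReal.ofReal k * bdry (unif K) A

end defs

/-- a rooted forest of height at most `d` (`u ≤ v`: `u = v`, or `u` is an ancestor of `v`): the elements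
`u ≤ v` form a chain of at most `d` elements -/
structure Forest (ι : Type) [Fintype ι] [PartialOrder ι] (d : ℕ) : Prop where
  chain : ∀ v a b : ι, a ≤ v → b ≤ v → a ≤ b ∨ b ≤ a
  height : ∀ v : ι, Nat.card {u : ι // u ≤ v} ≤ d

/-- `K` is given by conditions on the groups `(x_u)_{u ≤ v}` of coordinates: `x ∈ K` as soon as for every
`v` some point `y` of `K` has `y_u = x_u` for all `u ≤ v` -/
def Branched {ι : Type} [Fintype ι] [PartialOrder ι] (K : Set (EuclideanSpace ℝ ι)) : Prop :=
  ∀ x : EuclideanSpace ℝ ι, (∀ v : ι, ∃ y ∈ K, ∀ u : ι, u ≤ v → y u = x u) → x ∈ K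

/-- **The KLS inequality for convex bodies of bounded tree-depth.** There is an absolute constant `C` such
that for every rooted forest `ι` of height at most `d ≥ 1`, every convex body `K ⊆ ℝ^ι` which is given by
conditions on the groups of coordinates `(x_u)_{u ≤ v}`, `v ∈ ι`, satisfies Q1 with the constant
`1 / C^d`. -/
theorem result : ∃ C : ℝ, 1 ≤ C ∧ ∀ (ι : Type) [Fintype ι] [PartialOrder ι] (d : ℕ), 1 ≤ d →
    Forest ι d → ∀ K : Set (EuclideanSpace ℝ ι), Body K → Branched K → KLS K (C ^ d) := by
  obtain ⟨C, hC, H⟩ := Pool.Agent.Q86.EM.frh Pool.Agent.Q86.EM.q_dtd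
  refine ⟨C, hC, ?_⟩
  intro ι _ _ d hd hF K hK hB
  exact H ι d hd ⟨hF.chain, hF.height⟩ K ⟨hK.compact, hK.convex, hK.int⟩ hB

end Pool.Agent.Results.MP_8d00da_gt.BoundedTreeDepth
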