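import Pool.Agent.Q289.OP.Fin

/-!
# The KLS conjecture for order polytopes

Q1, for all (measurable) sets and with an absolute constant, for all order polytopes
`K = {x ∈ [a, b]^P : x_i ≤ x_j for all i ≤ j}`, where `P` is an arbitrary finite partially ordered set.
The dimension is the number of elements of `P`.

Method. See `Pool.Agent.Results.MP_6d896a_gt.OrderConditionedIsoperimetry` for the Poincare inequality of these bodies. The
passage to boundary measures is by the heat flow lemmas of the starting files; the variances of the linear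
functionals are compared with the halfspaces as in `BoxFibredBodies`.
-/

set_option autoImplicit false

namespace Pool.Agent.Results.MP_8d00da_gt.OrderPolytopes

open MeasureTheory Set
open scoped ENNReal InnerProductSpace

/-- the order polytope of the partially ordered set `ι`, with values in `[a, b]` -/
def orderPolytope (ι : Type) [Fintype ι] [PartialOrder ι] (a b : ℝ) : Set (EuclideanSpace ℝ ι) :=
  {x | (∀ i, x i ∈ Icc a b) ∧ Monotone fun i => x i}

/-- the uniform probability measure on `K` -/
noncomputable def unif {ι : Type} [Fintype ι] (K : Set (EuclideanSpace ℝ ι)) :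
    Measure (EuclideanSpace ℝ ι) := (volume K)⁻¹ • volume.restrict K

/-- Minkowski (exterior) boundary measure `μ⁺(A)` -/
noncomputable def bdry {ι : Type} [Fintype ι] (μ : Measure (EuclideanSpace ℝ ι))
    (A : Set (EuclideanSpace ℝ ι)) : ℝ≥0∞ :=
  Filter.liminf (fun ε : ℝ => (μ (Metric.thickening ε A) - μ A) / ENNReal.ofReal ε)
    (nhdsWithin 0 (Set.Ioi 0))

/-- the halfspace `⟪u, x⟫ ≤ r` -/
def halfspace {ι : Type} [Fintype ι] (u : EuclideanSpace ℝ ι) (r : ℝ) : Set (EuclideanSpace ℝ ι) :=
  {x | ⟪u, x⟫_ℝ ≤ r}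

/-- the covariance matrix of `μ` has norm at most `s` -/
def CovLe {ι : Type} [Fintype ι] (μ : Measure (EuclideanSpace ℝ ι)) (s : ℝ) : Prop :=
  ∀ θ : EuclideanSpace ℝ ι, ‖θ‖ = 1 → ProbabilityTheory.variance (fun x => ⟪x, θ⟫_ℝ) μ ≤ s

/-- **KLS for order polytopes.** There are absolute constants `C, c > 0` such that for all finite nonempty
partially ordered sets `ι`, all `a < b` and `μ` uniform on the order polytope (which is a convex body):
(1) `μ(A) (1 - μ(A)) ≤ C √s μ⁺(A)` for all measurable `A` if the covariance matrix of `μ` has norm at most `s`;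
(2) if `t min(μ H, 1 - μ H) ≤ μ⁺(H)` for all halfspaces `H` then `c t min(μ A, 1 - μ A) ≤ μ⁺(A)` for all
measurable `A`. -/
theorem result : ∃ C c : ℝ, 0 < C ∧ 0 < c ∧
    ∀ (ι : Type) [Fintype ι] [PartialOrder ι] [Nonempty ι] (a b : ℝ), a < b →
    (IsCompact (orderPolytope ι a b) ∧ Convex ℝ (orderPolytope ι a b) ∧
      (interior (orderPolytope ι a b)).Nonempty) ∧
    (∀ s : ℝ, 0 < s → CovLe (unif (orderPolytope ι a b)) s →
      ∀ A : Set (EuclideanSpace ℝ ι), MeasurableSet A →
        unif (orderPolytope ι a b) A * (1 - unif (orderPolytope ι a b) A) ≤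
          ENNReal.ofReal (C * Real.sqrt s) * bdry (unif (orderPolytope ι a b)) A) ∧
    (∀ t : ℝ≥0∞, (∀ (u : EuclideanSpace ℝ ι) (r : ℝ), u ≠ 0 →
        t * min (unif (orderPolytope ι a b) (halfspace u r))
          (1 - unif (orderPolytope ι a b) (halfspace u r)) ≤
          bdry (unif (orderPolytope ι a b)) (halfspace u r)) →
      ∀ A : Set (EuclideanSpace ℝ ι), MeasurableSet A →
        ENNReal.ofReal c * t * min (unif (orderPolytope ι a b) A)
          (1 - unif (orderPolytope ι a b) A) ≤ bdry (unif (orderPolytope ι a b)) A) := by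
  refine ⟨56, 1 / 400, by norm_num, by norm_num, ?_⟩
  intro ι _ _ _ a b hab
  have hv := Q237.OP.Var.var Pool.Agent.Q25.OP.sym
  obtain ⟨hK, hc, hi, he, hLC⟩ := Q237.OP.Ord.ord ι a b hab
  have hpos : 0 < volume (Q289.OP.OPo ι a b) :=
    lt_of_lt_of_le (isOpen_interior.measure_pos volume hi) (measure_mono interior_subset)
  refine ⟨⟨hK, hc, hi⟩, fun s hs hcov A hA => ?_, fun t ht A hA => ?_⟩
  · refine Q289.OP.poly_che Q289.OP.tS hv ι hab hs (fun θ hθ => ?_) hA
    have h1 := hcov θ hθ
    change ProbabilityTheory.variance (fun x => ⟪x, θ⟫_ℝ)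
      (Pool.Agent.Q188.SB.un (Q289.OP.OPo ι a b)) ≤ s at h1
    rw [Pool.Agent.Q188.SB.var_un (Q289.OP.OPo ι a b) hK hpos _ (by fun_prop)] at h1
    exact h1
  · exact Q289.OP.poly_half Q289.OP.tS hv ι hab t ht hA

end Pool.Agent.Results.MP_8d00da_gt.OrderPolytopes
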