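import Pool.Agent.Q86.EM.Che1
import Pool.Agent.Q193.EM.Chl
import Pool.Agent.Q193.EM.Hlf
import Pool.Agent.Q86.EM.Tra

/-!
# The KLS inequality passes from the parallel sections of a convex body to the body

Let `KLS K k` be Q1 for the convex body `K` with the constant `1 / k`: if
`t min(μ H, 1 - μ H) ≤ μ⁺(H)` for all halfspaces `H` then `t min(μ A, 1 - μ A) ≤ k μ⁺(A)` for all
measurable sets `A`. Theorem: there is an absolute constant `C` such that for every convex body `K` in
`ℝ^m × ℝ^n`, if all sections of `K` parallel to `ℝ^n` (with interior points) satisfy `KLS` with the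
constant `k ≥ 1` then `K` satisfies it with the constant `C^(m+1) k`. No assumption is made on the way
in which the sections vary, nor on the dimension `n`.

For example, Q1 holds with the constant `C^(m+1) (1 + q)²` for all convex bodies `K` in `ℝ^m × ℝ^n`, `n`
arbitrary, for which every section is, up to a translation, the unit ball of a power sum or an intersection
of such balls, `{z : ∑_j |ℓ_ij(z)|^{p_ij} ≤ 1 for all i}`, `p_ij ≥ 2`, with at most `n + q` functionals
(parallelepipeds in arbitrary directions, ellipsoids, linear images of `ℓ_p` balls, symmetric polytopes with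
`2 (n + q)` facets); all these data may vary with the section. For the sections themselves this is
`Pool.Agent.Results.MP_8d00da_gt.PowerSums`, of the starting files.

Method. The codimension one step is a two-scale argument over a line. The covariances of the sections
are bounded by `C s w(t)`, `w(t) = min(G, 1 - G)(t)^(-1/4)`, `G` the distribution function of the first
coordinate `t`; a field in the direction `t` is corrected by a field in the sections, and Hardy's inequality
absorbs the derivative of the conditional means. This bounds the variances of the 1-Lipschitz functions.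
From there to the Poincare inequality by a new proof of E. Milman's theorem, without geometric measure
theory: the functional `1/2 ∫ v² dν - ∫ K(G v) dμ` of functions `0 ≤ v ≤ 1`, `ν = μ * γ_h`, `G` the Gaussian
average, has no strictly negative minimum with mean below one half, by a second variation in the
direction `‖∇ v‖` and the gradient bound `‖∇ G* u‖ ≤ θ G* ‖∇ u‖`. The conditions on the sections are for
the bodies themselves, not for smooth approximations of them; they are transferred by Milman's
theorem again.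
-/

set_option autoImplicit false

namespace Pool.Agent.Results.MP_8d00da_gt.ParallelSections

open MeasureTheory Set
open scoped ENNReal InnerProductSpace

section defs

variable {ι : Type} [Fintype ι]

/-- convex body: a compact convex set with nonempty interior -/
structure Body (K : Set (EuclideanSpace ℝ ι)) : Prop where
  compact : IsCompact K
  convex : Convex ℝ K
  int : (interior K).Nonempty

/-- the uniform probability measure on `K` -/
noncomputable def unif (K : Set (EuclideanSpace ℝ ι)) : Measure (EuclideanSpace ℝ ι) :=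
  (volume K)⁻¹ • volume.restrict K

/-- Minkowski (exterior) boundary measure `μ⁺(A)` -/
noncomputable def bdry (μ : Measure (EuclideanSpace ℝ ι)) (A : Set (EuclideanSpace ℝ ι)) : ℝ≥0∞ :=
  Filter.liminf (fun ε : ℝ => (μ (Metric.thickening ε A) - μ A) / ENNReal.ofReal ε)
    (nhdsWithin 0 (Set.Ioi 0))

/-- the halfspace `⟪u, x⟫ ≤ r` -/
def halfspace (u : EuclideanSpace ℝ ι) (r : ℝ) : Set (EuclideanSpace ℝ ι) := {x | ⟪u, x⟫_ℝ ≤ r}

/-- **Q1 for the convex body `K`, with the constant `1 / k`**: for `μ` uniform on `K` and `t ∈ [0, ∞]`, if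
`t min(μ H, 1 - μ H) ≤ μ⁺(H)` for all halfspaces `H` then `t min(μ A, 1 - μ A) ≤ k μ⁺(A)` for all
measurable sets `A`. -/
def KLS (K : Set (EuclideanSpace ℝ ι)) (k : ℝ) : Prop := ∀ t : ℝ≥0∞,
  (∀ (u : EuclideanSpace ℝ ι) (r : ℝ), u ≠ 0 →
    t * min (unif K (halfspace u r)) (1 - unif K (halfspace u r)) ≤ bdry (unif K) (halfspace u r)) →
  ∀ A : Set (EuclideanSpace ℝ ι), MeasurableSet A →
    t * min (unif K A) (1 - unif K A) ≤ ENNReal.ofReal k * bdry (unif K) A

end defs

/-- `ℝ^m × ℝ^n` with its Euclidean norm -/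
abbrev Space (m n : ℕ) : Type := EuclideanSpace ℝ (Fin m ⊕ Fin n)

/-- the point `(t, z)` of `ℝ^m × ℝ^n` -/
noncomputable def point {m n : ℕ} (t : EuclideanSpace ℝ (Fin m)) (z : EuclideanSpace ℝ (Fin n)) :
    Space m n := WithLp.toLp 2 (Sum.elim t z)

/-- the section `{z : (t, z) ∈ K}` of `K` over the point `t` of `ℝ^m` -/
def slice {m n : ℕ} (K : Set (Space m n)) (t : EuclideanSpace ℝ (Fin m)) :
    Set (EuclideanSpace ℝ (Fin n)) := {z | point t z ∈ K}

/-- `S` is, up to a translation, the set of all `x` with `∑_j |ℓ_ij(x)|^{p_ij} ≤ 1` for all `i`, where the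
`ℓ_ij` are linear functionals on `ℝ^n`, at most `n + q` of them, and `p_ij ≥ 2`. -/
def PowerSections {n : ℕ} (q : ℕ) (S : Set (EuclideanSpace ℝ (Fin n))) : Prop :=
  ∃ (a : EuclideanSpace ℝ (Fin n)) (N : ℕ) (d : Fin N → ℕ) (p : ∀ i, Fin (d i) → ℝ)
    (ell : ∀ i, Fin (d i) → (EuclideanSpace ℝ (Fin n) →ₗ[ℝ] ℝ)), (∀ i, 1 ≤ d i) ∧
    ∑ i, d i ≤ n + q ∧ (∀ i j, 2 ≤ p i j) ∧ S = {x | ∀ i, ∑ j, |ell i j (x - a)| ^ p i j ≤ 1}

theorem KLS.mono {ι : Type} [Fintype ι] {K : Set (EuclideanSpace ℝ ι)} {k k' : ℝ} (h : k ≤ k')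
    (hk : KLS K k) : KLS K k' := fun t ht A hA =>
  (hk t ht A hA).trans (mul_le_mul_left (ENNReal.ofReal_le_ofReal h) _)

/-- **KLS passes from the parallel sections to the body.** There is an absolute constant `C` such that for
all `m, n` and all convex bodies `K` in `ℝ^m × ℝ^n`:
1. if all sections `{z : (t, z) ∈ K}` with interior points satisfy Q1 with the constant `1 / k`, `k ≥ 1`,
then `K` satisfies Q1 with the constant `1 / (C^(m+1) k)`;
2. if `n ≥ 1` and all sections with interior points are of the form `PowerSections q` then `K` satisfies Q1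
with the constant `1 / (C^(m+1) (1 + q)²)`. -/
theorem result : ∃ C : ℝ, 1 ≤ C ∧ ∀ (m n : ℕ) (K : Set (Space m n)), Body K →
    (∀ k : ℝ, 1 ≤ k → (∀ t : EuclideanSpace ℝ (Fin m), (interior (slice K t)).Nonempty →
      KLS (slice K t) k) → KLS K (C ^ (m + 1) * k)) ∧
    ∀ q : ℕ, 1 ≤ n → (∀ t : EuclideanSpace ℝ (Fin m), (interior (slice K t)).Nonempty →
      PowerSections q (slice K t)) → KLS K (C ^ (m + 1) * (1 + q) ^ 2) := by
  obtain ⟨C₁, hC₁, H⟩ := Pool.Agent.Q86.EM.main_che Pool.Agent.Q193.EM.Chl.chl
    Pool.Agent.Q193.EM.Hlf.hlf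
  obtain ⟨C₂, hC₂, H2⟩ := Pool.Agent.Q86.EM.PwB_kls
  refine ⟨C₁ * C₂, one_le_mul_of_one_le_of_one_le hC₁ hC₂, ?_⟩
  intro m n K hK
  have hCB : Pool.Agent.Q86.EM.CB K := ⟨hK.compact, hK.convex, hK.int⟩
  refine ⟨fun k hk h => ?_, fun q hn h => ?_⟩
  · refine KLS.mono ?_ (H m n K hCB k hk h)
    rw [mul_pow]
    refine mul_le_mul_of_nonneg_right ?_ (by linarith)
    exact le_mul_of_one_le_right (by positivity) (one_le_pow₀ hC₂)
  · have hq : (1 : ℝ) ≤ (1 + q) ^ 2 := one_le_pow₀ (by
      have : (0 : ℝ) ≤ q := Nat.cast_nonneg q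
      linarith)
    refine KLS.mono ?_ (H m n K hCB (C₂ * (1 + q) ^ 2) (one_le_mul_of_one_le_of_one_le hC₂ hq)
      fun t ht => ?_)
    · rw [mul_pow]
      have h1 : C₂ ≤ C₂ ^ (m + 1) := le_self_pow₀ hC₂ (by omega)
      calc C₁ ^ (m + 1) * (C₂ * (1 + (q : ℝ)) ^ 2) = C₁ ^ (m + 1) * C₂ * (1 + (q : ℝ)) ^ 2 := by ring
        _ ≤ C₁ ^ (m + 1) * C₂ ^ (m + 1) * (1 + (q : ℝ)) ^ 2 := by
            refine mul_le_mul_of_nonneg_right ?_ (by positivity)
            exact mul_le_mul_of_nonneg_left h1 (by positivity)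
    · have hb := (Pool.Agent.Q86.EM.CB_sm hCB t ht).cpt.isBounded
      exact H2 n q _ hn hb (h t ht)

end Pool.Agent.Results.MP_8d00da_gt.ParallelSections
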