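import Mathlib
import Pool.Agent.Q188.SB.Full

/-!
# The KLS conjecture for strongly convex bodies

Q1, for all measurable sets, for the intersections of balls of radius `R` and volume radius `v`, with a
constant that depends only on `R / v`, and for the sublevel sets of functions with Hessian between `κ` and
`Λ`, with a constant that depends only on `Λ / κ`.

Method. The variances of the 1-Lipschitz functions are bounded by tilting with a strongly concave function
that vanishes on the boundary; the normalisation by the volume radius comes from the level sets of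
that function. E. Milman's theorem (proof by helper86, `Pool/Agent/Q86/EM`) gives the Poincare inequality, and the
volume radius is compared with the covariance matrix.
-/

set_option autoImplicit false

namespace Pool.Agent.Results.MP_8d00da_gt.StronglyConvexBodiesKLS

open MeasureTheory Set
open scoped ENNReal InnerProductSpace

/-- `ℝ^n` -/
abbrev Rn (n : ℕ) : Type := EuclideanSpace ℝ (Fin n)

/-- convex body: compact, convex, with nonempty interior -/
structure ConvexBody {n : ℕ} (K : Set (Rn n)) : Prop where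
  conv : Convex ℝ K
  comp : IsCompact K
  int : (interior K).Nonempty

/-- Minkowski (exterior) boundary measure `μ⁺(A)` -/
noncomputable def bdry {n : ℕ} (μ : Measure (Rn n)) (A : Set (Rn n)) : ℝ≥0∞ :=
  Filter.liminf (fun ε : ℝ => (μ (Metric.thickening ε A) - μ A) / ENNReal.ofReal ε)
    (nhdsWithin 0 (Set.Ioi 0))

/-- the halfspace `⟪u, x⟫ ≤ b` -/
def halfspace {n : ℕ} (u : Rn n) (b : ℝ) : Set (Rn n) := {x | inner ℝ u x ≤ b}

/-- the uniform probability measure on `K` -/
noncomputable def unif {n : ℕ} (K : Set (Rn n)) : Measure (Rn n) :=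
  (volume K)⁻¹ • volume.restrict K

/-- Spectral gap estimates with the constant `D` for Lipschitz functions, and with the constant `C D` for
all functions and all sets -/
structure Gap {n : ℕ} (C D : ℝ) (μ : Measure (Rn n)) : Prop where
  lip : ∀ f : Rn n → ℝ, ContDiff ℝ 1 f → (∀ x, ‖fderiv ℝ f x‖ ≤ 1) →
    ProbabilityTheory.variance f μ ≤ D
  poincare : ∀ f : Rn n → ℝ, ContDiff ℝ 1 f →
    ProbabilityTheory.variance f μ ≤ C * D * ∫ x, ‖fderiv ℝ f x‖ ^ 2 ∂μ
  sets : ∀ A : Set (Rn n), MeasurableSet A →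
    μ A * (1 - μ A) ≤ ENNReal.ofReal (C * Real.sqrt D) * bdry μ A

/-- `μ(A) (1 - μ(A)) ≤ k √s μ⁺(A)` for all measurable sets `A` and every bound `s` of the variances of the
marginals of `μ` in directions of length one -/
def KLSCov {n : ℕ} (k : ℝ) (μ : Measure (Rn n)) : Prop :=
  ∀ s : ℝ, 0 < s →
    (∀ θ : Rn n, ‖θ‖ = 1 → ProbabilityTheory.variance (fun x => ⟪x, θ⟫_ℝ) μ ≤ s) →
    ∀ A : Set (Rn n), MeasurableSet A →
      μ A * (1 - μ A) ≤ ENNReal.ofReal (k * Real.sqrt s) * bdry μ A

/-- **Q1 for the convex body `K`, with the constant `1 / k`**: for `μ` uniform on `K` and `t ∈ [0, ∞]`, if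
`t min(μ H, 1 - μ H) ≤ μ⁺(H)` for all halfspaces `H` then `t min(μ A, 1 - μ A) ≤ k μ⁺(A)` for all
measurable sets `A`. -/
def KLS {n : ℕ} (K : Set (Rn n)) (k : ℝ) : Prop :=
  ∀ t : ℝ≥0∞, (∀ (u : Rn n) (b : ℝ), u ≠ 0 →
      t * min (unif K (halfspace u b)) (1 - unif K (halfspace u b)) ≤
        bdry (unif K) (halfspace u b)) →
    ∀ A : Set (Rn n), MeasurableSet A →
      t * min (unif K A) (1 - unif K A) ≤ ENNReal.ofReal k * bdry (unif K) A

/-- `κ |y - x|² / 2 ≤ V(y) - V(x) - ⟪b(x), y - x⟫ ≤ Λ |y - x|² / 2`: for `C²` functions this says that the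
eigenvalues of the Hessian of `V` lie between `κ` and `Λ` -/
structure HessianBounds {n : ℕ} (V : Rn n → ℝ) (b : Rn n → Rn n) (κ Λ : ℝ) : Prop where
  pos : 0 < κ
  low : ∀ x y, V x + ⟪b x, y - x⟫_ℝ + κ / 2 * ‖y - x‖ ^ 2 ≤ V y
  up : ∀ x y, V y ≤ V x + ⟪b x, y - x⟫_ℝ + Λ / 2 * ‖y - x‖ ^ 2

/-- **KLS for strongly convex bodies.** There is an absolute constant `C` with the following property.
Let `K ⊆ ℝ^n` be a convex body of volume radius `v` (the volume of `K` is the volume of the ball of
radius `v`).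
* If `K` is an intersection of closed balls of radius `R`, then the uniform measure on `K` satisfies the
  spectral gap estimates with the constant `4 R v / n`, and Q1 with the constant `c √(v / R)`, `c = 1 / C`.
* If `K` is the sublevel set `V ≤ 0` of a function whose Hessian lies between `κ` and `Λ`, then it
  satisfies the spectral gap estimates with the constant `4 (Λ / κ) v² / n`, and Q1 with the constant
  `c √(κ / Λ)`. -/
theorem result : ∃ C : ℝ, 1 ≤ C ∧ ∀ n : ℕ, 1 ≤ n → ∀ K : Set (Rn n), ConvexBody K →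
    ∀ v : ℝ, 0 < v → volume K = volume (Metric.closedBall (0 : Rn n) v) →
    (∀ (R : ℝ) (Z : Set (Rn n)), 0 < R → K = ⋂ z ∈ Z, Metric.closedBall z R →
      Gap C (4 * R * v / n) (unif K) ∧ KLSCov (C * Real.sqrt (R / v)) (unif K) ∧
        KLS K (C * Real.sqrt (R / v))) ∧
    (∀ (V : Rn n → ℝ) (b : Rn n → Rn n) (κ Λ : ℝ), HessianBounds V b κ Λ → K = {x | V x ≤ 0} →
      Gap C (4 * Λ * v ^ 2 / (κ * n)) (unif K) ∧ KLSCov (C * Real.sqrt (Λ / κ)) (unif K) ∧
        KLS K (C * Real.sqrt (Λ / κ))) := by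
  obtain ⟨C, hC, hfull⟩ := Pool.Agent.Q188.SB.full
  refine ⟨C, hC, ?_⟩
  intro n hn K hK v hv hvol
  have hne' : Nonempty (Fin n) := ⟨⟨0, hn⟩⟩
  have hpos : 0 < volume K :=
    lt_of_lt_of_le (isOpen_interior.measure_pos volume hK.int) (measure_mono interior_subset)
  have hcard : (Fintype.card (Fin n) : ℝ) = n := by simp
  have main : ∀ (h : Rn n → ℝ) (c L : ℝ), Pool.Agent.Q188.SB.Bd K h c L v →
      Gap C (4 * L * v / (c * n)) (unif K) ∧
      KLSCov (C * Real.sqrt (L / (c * v))) (unif K) ∧ KLS K (C * Real.sqrt (L / (c * v))) := by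
    intro h c L H
    obtain ⟨h1, h2, h3, h4, h5⟩ := hfull (Fin n) K h c L v H hK.int
    rw [hcard] at h1 h2 h3
    exact ⟨⟨h1, h2, h3⟩, h4, h5⟩
  refine ⟨fun R Z hR hZ => ?_, fun V b κ Λ hV hKV => ?_⟩
  · have H := Pool.Agent.Q188.SB.bd_ball K hK.comp hK.conv hpos R hR Z hZ v hv hvol
    have h1 := main _ _ _ H
    rw [one_mul, one_mul] at h1
    exact h1
  · subst hKV
    have H0 : Pool.Agent.Q188.SB.Cond V b κ Λ := ⟨hV.pos, hV.low, hV.up⟩
    have H := Pool.Agent.Q188.SB.bd_level H0 hpos v hv hvol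
    have h1 := main _ _ _ H
    have hκ := hV.pos
    have hΛ : 0 < Λ := hκ.trans_le H0.le
    have e1 : 4 * (Λ * v) * v / (κ * n) = 4 * Λ * v ^ 2 / (κ * n) := by ring
    have e2 : Λ * v / (κ * v) = Λ / κ := by field_simp
    rw [e1, e2] at h1
    exact h1

end Pool.Agent.Results.MP_8d00da_gt.StronglyConvexBodiesKLS
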